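import Pool.Agent.H846.Det.Trace

/-!
# Operators with detected eigenvalues and trace zero
-/

open Polynomial Matrix

namespace Pool.Agent.H846.Det

open R911.Iso

variable {K : Type*} [Field K] [CharZero K] {V : Type*} [AddCommGroup V] [Module K V]

/-- The value of a composition. -/
lemma ev_ev (a : Module.End K V) (r p : ℚ[X]) : ev (ev a r) p = ev a (p.comp r) := by
  induction p using Polynomial.induction_on' with
  | add p q hp hq => rw [map_add, hp, hq, Polynomial.add_comp, map_add]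
  | monomial n c =>
    rw [← mul_one c, ← smul_eq_mul, ← smul_monomial, ev_smul, smul_comp, ev_smul,
      ← X_pow_eq_monomial, map_pow, ev_X, X_pow_comp, map_pow]

/-- The condition of `trace_nonneg`. -/
def DetectsEv (a : Module.End K V) : Prop :=
  ∀ g : ℚ[X], ev a g * ev a g = ev a g → ev a g ≠ 0 → ∃ φ : ℚ[X] →ₗ[ℚ] ℚ, PosFun φ ∧
    (∀ h, ev a h = 0 → φ h = 0) ∧ φ g ≠ 0

/-- The condition passes to the operators `a g(a)²`. -/
lemma DetectsEv.sq {a : Module.End K V} (h : DetectsEv a) (g : ℚ[X]) :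
    DetectsEv (ev a (X * (g * g))) := by
  intro f hf hf0
  rw [ev_ev] at hf hf0
  obtain ⟨φ, hφ, hφ0, hφf⟩ := h _ hf hf0
  let ψ : ℚ[X] →ₗ[ℚ] ℚ := φ ∘ₗ (compRingHom (X * (g * g))).toAddMonoidHom.toRatLinearMap
  have hψ : ∀ p, ψ p = φ (p.comp (X * (g * g))) := fun p => rfl
  refine ⟨ψ, ⟨?_, ?_⟩, ?_, ?_⟩
  · intro p
    rw [hψ, mul_comp]
    exact hφ.sq _
  · intro p
    rw [hψ, mul_comp, mul_comp, X_comp, show X * (g * g) * (p.comp (X * (g * g)) *
      p.comp (X * (g * g))) = X * ((g * p.comp (X * (g * g))) * (g * p.comp (X * (g * g)))) by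
        ring]
    exact hφ.xsq _
  · intro p hp
    rw [ev_ev] at hp
    exact hφ0 _ hp
  · exact hφf

variable [Module.Finite K V]

/-- **An operator with detected eigenvalues and trace zero is nilpotent.** -/
theorem nilpotent_of_trace_zero {a : Module.End K V}
    (hrat : ∀ m, ∃ q : ℚ, LinearMap.trace K V (a ^ m) = q) (hdet : DetectsEv a)
    (h0 : LinearMap.trace K V a = 0) : IsNilpotent a := by
  have H := ratRep_ev hrat
  let ψ : ℚ[X] →ₗ[ℚ] ℚ := H.tq ∘ₗ LinearMap.mulLeft ℚ X
  have hψ : ∀ p, ((ψ p : ℚ) : K) = LinearMap.trace K V (ev a (X * p)) := fun p => H.tq_spec _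
  have hsq : ∀ g, 0 ≤ ψ (g * g) := by
    intro g
    have hr : ∀ m, ∃ q : ℚ, LinearMap.trace K V ((ev a (X * (g * g))) ^ m) = q := by
      intro m
      rw [← map_pow]
      exact H.rat _
    obtain ⟨q, hq0, hq⟩ := (trace_nonneg hr (hdet.sq g)).2
    have h1 := hψ (g * g)
    rw [hq] at h1
    have h2 : ψ (g * g) = q := by exact_mod_cast h1
    rw [h2]
    exact hq0
  have h1 : ψ (1 * 1) = 0 := by
    have h1 := hψ (1 * 1)
    rw [mul_one, mul_one, ev_X, h0] at h1
    exact_mod_cast h1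
  have hcs : ∀ h, ψ (1 * h) = 0 := by
    intro h
    by_contra hne
    have key : ∀ t : ℚ, 0 ≤ ψ (h * h) + 2 * t * ψ (1 * h) := by
      intro t
      have h2 := hsq (h + t • 1)
      have h3 : (h + t • (1 : ℚ[X])) * (h + t • 1) = h * h + (2 * t) • (1 * h) +
          (t * t) • (1 * 1) := by
        simp only [smul_eq_C_mul]
        rw [C_mul, C_mul]
        have : C (2 : ℚ) = 2 := rfl
        rw [this]
        ring
      rw [h3, map_add, map_add, map_smul, map_smul, h1, smul_eq_mul, smul_eq_mul, mul_zero,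
        add_zero] at h2
      exact h2
    have h2 := key (-(ψ (h * h) + 1) / (2 * ψ (1 * h)))
    have h3 : 2 * (-(ψ (h * h) + 1) / (2 * ψ (1 * h))) * ψ (1 * h) = -(ψ (h * h) + 1) := by
      field_simp
    rw [h3] at h2
    linarith
  apply H914.isNilpotent_of_trace_pow
  intro r
  have h2 := hψ (1 * X ^ r)
  rw [hcs, Rat.cast_zero, one_mul, ← pow_succ', map_pow, ev_X] at h2
  exact h2.symm

end Pool.Agent.H846.Det
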