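import Pool.Agent.H846.Det.Gd

/-!
# The standard conjecture of Hodge type for a product and traces of `u' u`
-/

open CategoryTheory AlgebraicGeometry Finset

universe u v

namespace Pool.Agent.H846.Det

open Pool.Agent.H914 Pool.Agent.H914.VarClass Pool.Agent.H914.VarClass.Obj
  Pool.Agent.H914.WeilCohomology Pool.Agent.H281R3.HT Pool.Agent.W552 Pool.Agent.W539.Ker
  Pool.Agent.R911.Iso Pool.Agent.H447

variable {k : Type u} [Field k] {𝒱 : VarClass k} {ops : CycleOps 𝒱}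
  {W : WeilCohomology.{u, v} ops} {X Y : 𝒱.Obj} {D : X.Cycles} {f : Module.End W.K (W.H X)}
  {E : Y.Cycles} {g : Module.End W.K (W.H Y)}

/-- The operator `u'` is the adjoint of `u` for the Hodge-Riemann forms. -/
def Adj (W : WeilCohomology.{u, v} ops) {X Y : 𝒱.Obj} (D : X.Cycles)
    (f : Module.End W.K (W.H X)) (E : Y.Cycles) (g : Module.End W.K (W.H Y))
    (u : W.H X →ₗ[W.K] W.H Y) (u' : W.H Y →ₗ[W.K] W.H X) : Prop :=
  ∀ p q, bf W Y E g (u p) q = bf W X D f p (u' q)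

lemma Adj.comp {Z : 𝒱.Obj} {C : Z.Cycles} {h : Module.End W.K (W.H Z)}
    {u : W.H X →ₗ[W.K] W.H Y} {u' : W.H Y →ₗ[W.K] W.H X} {v : W.H Y →ₗ[W.K] W.H Z}
    {v' : W.H Z →ₗ[W.K] W.H Y} (hu : Adj W D f E g u u') (hv : Adj W E g C h v v') :
    Adj W D f C h (v ∘ₗ u) (u' ∘ₗ v') := by
  intro p q
  rw [LinearMap.comp_apply, LinearMap.comp_apply, hv, hu]

/-- Algebraic operators commute with the parity. -/
lemma par_comm_of_aop {u : W.H X →ₗ[W.K] W.H Y} (h : AOp W X Y u) (x : W.H X) :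
    u (par (W.isInternal X) x) = par (W.isInternal Y) (u x) := by
  obtain ⟨c, hc, rfl⟩ := h
  refine AS.ind (p := fun c => W.corr c (par (W.isInternal X) x) =
    par (W.isInternal Y) (W.corr c x)) ?_ ?_ hc
  swap
  · intro c c' hc hc'
    rw [corr_add, LinearMap.add_apply, hc, hc', LinearMap.add_apply, map_add]
  intro j c hc
  refine gr_induction (W.isInternal X) (p := fun x => W.corr c (par (W.isInternal X) x) =
    par (W.isInternal Y) (W.corr c x)) ?_ ?_ x
  swap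
  · intro x x' hx hx'
    rw [map_add, map_add, hx, hx', map_add, map_add]
  intro i x hx
  have h1 := W.push_mem (snd X Y) (W.mul_mem (alg_gr hc) (W.map_mem (fst X Y) hx))
  rw [← corr_apply] at h1
  rw [par, scal_apply _ _ hx, map_smul]
  by_cases hm : ∃ l : ℕ, (l : ℤ) = ((2 * j + i : ℕ) : ℤ) + 2 * ((Y.dim : ℤ) - (X.prod Y).dim)
  · obtain ⟨l, hl⟩ := hm
    rw [← hl, grZ_natCast] at h1
    rw [par, scal_apply _ _ h1]
    congr 1
    rw [dim_prod] at hl
    push_cast at hl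
    rcases Nat.even_or_odd i with he | ho
    · rw [he.neg_one_pow, Even.neg_one_pow]
      obtain ⟨r, hr⟩ := he
      rw [Nat.even_iff]
      omega
    · rw [ho.neg_one_pow, Odd.neg_one_pow]
      obtain ⟨r, hr⟩ := ho
      rw [Nat.odd_iff]
      omega
  · have hneg : ((2 * j + i : ℕ) : ℤ) + 2 * ((Y.dim : ℤ) - (X.prod Y).dim) < 0 := by
      by_contra h0
      exact hm ⟨_, Int.toNat_of_nonneg (by omega)⟩
    rw [grZ_of_neg hneg] at h1
    rw [(Submodule.mem_bot _).1 h1]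
    simp

section One

variable (G : Gd W X D f)

include G

lemma Adj.symm {E : Y.Cycles} {g : Module.End W.K (W.H Y)} (G' : Gd W Y E g)
    {u : W.H X →ₗ[W.K] W.H Y} {u' : W.H Y →ₗ[W.K] W.H X} (hu : Adj W D f E g u u')
    (h : AOp W X Y u) : Adj W E g D f u' u := by
  intro p q
  rw [G.sy (u' p) q, ← hu, par_comm_of_aop h, ← G'.sy]

/-- Self-adjoint operators. -/
lemma Adj.self {E : Y.Cycles} {g : Module.End W.K (W.H Y)} (G' : Gd W Y E g)
    {u : W.H X →ₗ[W.K] W.H Y} {u' : W.H Y →ₗ[W.K] W.H X} (hu : Adj W D f E g u u')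
    (h : AOp W X Y u) : Adj W D f D f (u' ∘ₗ u) (u' ∘ₗ u) :=
  hu.comp (Adj.symm G G' hu h)

end One

section Two

variable (G : Gd W X D f) (G' : Gd W Y E g)

include G G'

/-- The trace of `u' u` for an operator `u` of an algebraic class. -/
lemma trace_adj {c : W.H (X.prod Y)} (hc : AS W _ c) {u' : W.H Y →ₗ[W.K] W.H X}
    (hu : Adj W D f E g (W.corr c) u') :
    LinearMap.trace W.K (W.H X) (u' ∘ₗ W.corr c) =
      bf W (X.prod Y) (ops.pull (fst X Y) D + ops.pull (snd X Y) E) (extSum W f g) c c :=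
  G.trace_corr G' hc hc hu

/-- The standard conjecture of Hodge type for `X × Y` implies that the traces are nonnegative. -/
theorem trace_nonneg_of_hodge
    (hH : HodgeStandard W (X.prod Y) (ops.pull (fst X Y) D + ops.pull (snd X Y) E))
    {u : W.H X →ₗ[W.K] W.H Y} (hu : AOp W X Y u) {u' : W.H Y →ₗ[W.K] W.H X}
    (hadj : Adj W D f E g u u') :
    ∃ q : ℚ, 0 ≤ q ∧ LinearMap.trace W.K (W.H X) (u' ∘ₗ u) = q := by
  obtain ⟨c, hc, rfl⟩ := hu
  rw [trace_adj G G' hc hadj]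
  exact bf_nonneg_AS (gd_prod G G') hH hc

/-- If the traces are nonnegative, the standard conjecture of Hodge type holds for `X × Y`. -/
theorem hodge_of_trace_nonneg
    (h : ∀ l, ∀ z, (X.prod Y).IsCyc l z → ∀ u', AOp W Y X u' →
      Adj W D f E g (W.corr (W.cl _ z)) u' →
      ∃ q : ℚ, 0 ≤ q ∧ LinearMap.trace W.K (W.H X) (u' ∘ₗ W.corr (W.cl _ z)) = q) :
    HodgeStandard W (X.prod Y) (ops.pull (fst X Y) D + ops.pull (snd X Y) E) := by
  apply hodgeStandard_of_nonneg (gd_prod G G')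
  intro c hc
  refine bf_nonneg_of_hom (gd_prod G G') ?_ hc
  rintro l _ ⟨z, hz, rfl⟩
  have hz' : AS W _ (W.cl _ z) := AS.of ⟨z, hz, rfl⟩
  obtain ⟨u', hu', hadj⟩ := G.adj G' (u := W.corr (W.cl _ z)) ⟨_, hz', rfl⟩
  rw [← trace_adj G G' hz' hadj]
  exact h l z hz u' hu' hadj

end Two

end Pool.Agent.H846.Det
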