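import Pool.Agent.H846.Det.Core

/-!
# Operators with rational traces and nonnegative functionals
-/

open Polynomial Matrix

namespace Pool.Agent.H846.Det

open R911.Iso

variable {K : Type*} [Field K] [CharZero K] {V : Type*} [AddCommGroup V] [Module K V]

/-- The value of a rational polynomial at an operator, as a ring homomorphism. -/
noncomputable def ev (a : Module.End K V) : ℚ[X] →+* Module.End K V :=
  (aeval (R := K) a).toRingHom.comp (mapRingHom (algebraMap ℚ K))

lemma ev_apply (a : Module.End K V) (p : ℚ[X]) : ev a p = aeval a (p.map (algebraMap ℚ K)) := rfl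

@[simp] lemma ev_X (a : Module.End K V) : ev a X = a := by
  rw [ev_apply, Polynomial.map_X, aeval_X]

lemma ev_C (a : Module.End K V) (q : ℚ) : ev a (C q) = (q : K) • 1 := by
  rw [ev_apply, Polynomial.map_C, aeval_C, Algebra.algebraMap_eq_smul_one, eq_ratCast]

lemma ev_smul (a : Module.End K V) (q : ℚ) (p : ℚ[X]) : ev a (q • p) = (q : K) • ev a p := by
  rw [smul_eq_C_mul, map_mul, ev_C, smul_mul_assoc, one_mul]

lemma ev_comm (a : Module.End K V) (p r : ℚ[X]) : ev a p * ev a r = ev a r * ev a p := by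
  rw [← map_mul, mul_comm, map_mul]

variable [Module.Finite K V]

/-- The trace is the sum of a multiset of complex roots of an annihilating polynomial with rational
coefficients. -/
theorem exists_spec_one (y : Module.End K V) {p : ℚ[X]} (hp0 : p ≠ 0)
    (hp : ev y p = 0) {q : ℚ} (hq : LinearMap.trace K V y = q) :
    ∃ S : Multiset ℂ, (∀ l ∈ S, aeval l p = 0) ∧ (q : ℂ) = S.sum := by
  classical
  let b := Module.finBasis K V
  set M : Matrix _ _ K := LinearMap.toMatrix b b y with hM
  let F := AlgebraicClosure K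
  let M' : Matrix (Fin (Module.finrank K V)) (Fin (Module.finrank K V)) F :=
    M.map (algebraMap K F)
  have hroot : ∀ μ ∈ M'.charpoly.roots, aeval μ p = 0 := by
    intro μ hμ
    rw [mem_roots (Matrix.charpoly_monic M').ne_zero, IsRoot.def, Matrix.eval_charpoly] at hμ
    obtain ⟨v, hv, hv2⟩ := Matrix.exists_mulVec_eq_zero_iff.2 hμ
    rw [Matrix.sub_mulVec, sub_eq_zero] at hv2
    have h1 : M' *ᵥ v = μ • v := by
      rw [← hv2, Matrix.scalar_apply, Matrix.diagonal_const_mulVec]
    have h2 : ∀ P : F[X], (aeval M' P) *ᵥ v = (P.eval μ) • v := by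
      intro P
      induction P using Polynomial.induction_on' with
      | add P Q hP hQ => rw [map_add, Matrix.add_mulVec, hP, hQ, eval_add, add_smul]
      | monomial m a =>
        have h3 : ∀ m : ℕ, (M' ^ m) *ᵥ v = (μ ^ m) • v := by
          intro m
          induction m with
          | zero => simp
          | succ m ih => rw [pow_succ, ← Matrix.mulVec_mulVec, h1, Matrix.mulVec_smul, ih,
              smul_smul, pow_succ, mul_comm]
        rw [aeval_monomial, eval_monomial, ← Algebra.smul_def, Matrix.smul_mulVec, h3,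
          smul_smul]
    have h4 : aeval M' (p.map (algebraMap ℚ F)) = 0 := by
      have h5 : aeval M (p.map (algebraMap ℚ K)) = 0 := by
        have h6 := congrArg (LinearMap.toMatrixAlgEquiv b) hp
        rw [map_zero, ev_apply, ← Polynomial.aeval_algHom_apply] at h6
        exact h6
      have h7 := congrArg (fun A : Matrix _ _ K => A.map (algebraMap K F)) h5
      have h8 : ∀ P : K[X], (aeval M P).map (algebraMap K F) =
          aeval M' (P.map (algebraMap K F)) := by
        intro P
        have h9 : (Algebra.ofId K F).mapMatrix (aeval M P) =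
            aeval ((Algebra.ofId K F).mapMatrix M) P :=
          (Polynomial.aeval_algHom_apply _ M P).symm
        rw [Polynomial.aeval_map_algebraMap]
        exact h9
      rw [h8, Polynomial.map_map] at h7
      have h10 : (algebraMap K F).comp (algebraMap ℚ K) = algebraMap ℚ F :=
        Subsingleton.elim _ _
      rw [h10] at h7
      rw [h7]
      simp
    have h5 := h2 (p.map (algebraMap ℚ F))
    rw [h4, Matrix.zero_mulVec] at h5
    have h6 : eval μ (p.map (algebraMap ℚ F)) = 0 := by
      rcases smul_eq_zero.1 h5.symm with h | h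
      · exact h
      · exact absurd h hv
    rw [eval_map_algebraMap] at h6
    exact h6
  let L := algebraicClosure ℚ F
  have hL : ∀ μ ∈ M'.charpoly.roots, μ ∈ L := by
    intro μ hμ
    rw [mem_algebraicClosure_iff]
    exact ⟨p, hp0, hroot μ hμ⟩
  have : Algebra.IsAlgebraic ℚ L := algebraicClosure.isAlgebraic ℚ F
  let φ : L →ₐ[ℚ] ℂ := IsAlgClosed.lift
  have htr : M'.trace = (q : F) := by
    have h2 : M.trace = (q : K) := by
      rw [hM, ← hq, LinearMap.trace_eq_matrix_trace K b]
    rw [← AddMonoidHom.map_trace (algebraMap K F), h2]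
    exact map_ratCast (algebraMap K F) q
  rw [Matrix.trace_eq_sum_roots_charpoly] at htr
  refine ⟨M'.charpoly.roots.attach.map (fun μ => φ ⟨μ.1, hL μ.1 μ.2⟩), ?_, ?_⟩
  · intro l hl
    obtain ⟨μ, _, rfl⟩ := Multiset.mem_map.1 hl
    have h1 : aeval (⟨μ.1, hL μ.1 μ.2⟩ : L) p = 0 := by
      apply Subtype.ext
      have h2 := hroot μ.1 μ.2
      exact (Polynomial.aeval_algHom_apply L.val (⟨μ.1, hL μ.1 μ.2⟩ : L) p).symm.trans h2
    rw [Polynomial.aeval_algHom_apply, h1, map_zero]
  · have h1 : ((M'.charpoly.roots.attach.map (fun μ => (⟨μ.1, hL μ.1 μ.2⟩ : L))).sum : L) =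
        (q : L) := by
      apply Subtype.ext
      have h2 : (((M'.charpoly.roots.attach.map (fun μ => (⟨μ.1, hL μ.1 μ.2⟩ : L))).sum : L) : F) =
        L.val ((M'.charpoly.roots.attach.map
          (fun μ => (⟨μ.1, hL μ.1 μ.2⟩ : L))).sum) := rfl
      rw [h2, map_multiset_sum, Multiset.map_map]
      have h3 : ((M'.charpoly.roots.attach.map (L.val ∘ fun μ => (⟨μ.1, hL μ.1 μ.2⟩ : L))).sum :
          F) = M'.charpoly.roots.sum := by
        conv_rhs => rw [← Multiset.attach_map_val M'.charpoly.roots]
        rfl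
      rw [h3, htr]
      exact (map_ratCast L.val q).symm
    have h2 := congrArg φ h1
    rw [map_multiset_sum, Multiset.map_map, map_ratCast] at h2
    rw [← h2]
    rfl

omit [Module.Finite K V] in
/-- The representation of the polynomial ring attached to an operator. -/
lemma ratRep_ev {a : Module.End K V} (hrat : ∀ m, ∃ q : ℚ, LinearMap.trace K V (a ^ m) = q) :
    RatRep (ev a) where
  smul := ev_smul a
  rat := by
    intro r
    induction r using Polynomial.induction_on' with
    | add p r hp hr =>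
      obtain ⟨x, hx⟩ := hp
      obtain ⟨y, hy⟩ := hr
      exact ⟨x + y, by rw [map_add, map_add, hx, hy, Rat.cast_add]⟩
    | monomial m c =>
      obtain ⟨q, hq⟩ := hrat m
      refine ⟨c * q, ?_⟩
      rw [← mul_one c, ← smul_eq_mul, ← smul_monomial, ev_smul, map_smul, ← X_pow_eq_monomial,
        map_pow, ev_X, hq]
      simp

/-- Operators with rational traces are algebraic over the rational numbers. -/
theorem exists_annihilator {a : Module.End K V}
    (hrat : ∀ m, ∃ q : ℚ, LinearMap.trace K V (a ^ m) = q) : ∃ p : ℚ[X], p ≠ 0 ∧ ev a p = 0 := by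
  have H := ratRep_ev hrat
  have hfin : Module.Finite ℚ (QA (ev a)) := H.finite
  set x := qm (ev a) X with hx
  have h0 : minpoly ℚ x ≠ 0 := minpoly.ne_zero (Algebra.IsIntegral.isIntegral x)
  have h1 : qm (ev a) (minpoly ℚ x) = 0 := by
    have h2 := minpoly.aeval ℚ x
    rw [hx, Polynomial.aeval_algHom_apply, aeval_X_left_apply] at h2
    rw [← hx] at h2
    exact h2
  obtain ⟨N, hN⟩ := nilpotent_of_qm h1
  exact ⟨minpoly ℚ x ^ N, pow_ne_zero _ h0, by rw [map_pow]; exact hN⟩

/-- **Detection of the eigenvalues by nonnegative functionals.** -/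
theorem trace_nonneg {a : Module.End K V}
    (hrat : ∀ m, ∃ q : ℚ, LinearMap.trace K V (a ^ m) = q)
    (hdet : ∀ g : ℚ[X], ev a g * ev a g = ev a g → ev a g ≠ 0 → ∃ φ : ℚ[X] →ₗ[ℚ] ℚ, PosFun φ ∧
      (∀ h, ev a h = 0 → φ h = 0) ∧ φ g ≠ 0) :
    (∃ p : ℚ[X], p ≠ 0 ∧ ev a p = 0 ∧ ∀ z : ℂ, aeval z p = 0 → z.im = 0 ∧ 0 ≤ z.re) ∧
      ∃ q : ℚ, 0 ≤ q ∧ LinearMap.trace K V a = q := by
  obtain ⟨p₀, hp₀, hp₀a⟩ := exists_annihilator hrat
  -- the generator of the ideal of relations
  set I : Ideal ℚ[X] := RingHom.ker (ev a) with hI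
  set p := Submodule.IsPrincipal.generator I with hp
  have hpI : ∀ g, ev a g = 0 ↔ p ∣ g := by
    intro g
    rw [← RingHom.mem_ker, ← hI, Submodule.IsPrincipal.mem_iff_generator_dvd I]
  have hpa : ev a p = 0 := (hpI p).2 dvd_rfl
  have hp0 : p ≠ 0 := by
    intro h0
    have := (hpI p₀).1 hp₀a
    rw [h0, zero_dvd_iff] at this
    exact hp₀ this
  have hroots : ∀ z : ℂ, aeval z p = 0 → z.im = 0 ∧ 0 ≤ z.re := by
    intro z hz
    have hint : IsIntegral ℚ z := isAlgebraic_iff_isIntegral.1 ⟨p, hp0, hz⟩
    set f := minpoly ℚ z with hfdef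
    have hf : Irreducible f := minpoly.irreducible hint
    have hfp : f ∣ p := minpoly.dvd ℚ z hz
    have hfin : FiniteMultiplicity f p := FiniteMultiplicity.of_not_isUnit hf.not_isUnit hp0
    obtain ⟨h₀, hph, hnd⟩ := hfin.exists_eq_pow_mul_and_not_dvd
    set m := multiplicity f p with hm
    have hm0 : m ≠ 0 := by
      intro h0
      rw [h0, pow_zero, one_mul] at hph
      rw [hph] at hfp
      exact hnd hfp
    have hcop : IsCoprime (f ^ m) h₀ := ((hf.coprime_iff_not_dvd).2 hnd).pow_left
    obtain ⟨s, t, hst⟩ := hcop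
    set g := t * h₀ with hg
    have e1 : ev a (g * f ^ m) = 0 := by
      rw [hpI, hg, hph]
      exact ⟨t, by ring⟩
    have e2 : ev a g * ev a g = ev a g := by
      have h2 : g * g = g - s * (g * f ^ m) := by
        have : g = 1 - s * f ^ m := by rw [hg]; linear_combination hst
        linear_combination (g) * this
      rw [← map_mul, h2, map_sub, map_mul (ev a) s, e1, mul_zero, sub_zero]
    have e3 : ev a g ≠ 0 := by
      intro h2
      rw [hpI] at h2
      have h3 : f ∣ g := hfp.trans h2
      have h4 : f ∣ 1 := by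
        rw [← hst]
        exact dvd_add ((dvd_pow_self f hm0).mul_left s) h3
      exact hf.not_isUnit (isUnit_of_dvd_one h4)
    obtain ⟨φ, hφ, hφ0, hφg⟩ := hdet g e2 e3
    let ψ : ℚ[X] →ₗ[ℚ] ℚ := φ ∘ₗ LinearMap.mulLeft ℚ (g * g)
    have hψ : ∀ h, ψ h = φ (g * g * h) := fun h => rfl
    have hψp : PosFun ψ := by
      constructor
      · intro h
        rw [hψ, show g * g * (h * h) = (g * h) * (g * h) by ring]
        exact hφ.sq _
      · intro h
        rw [hψ, show g * g * (X * (h * h)) = X * ((g * h) * (g * h)) by ring]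
        exact hφ.xsq _
    have hψ1 : 0 < ψ 1 := by
      have h5 : φ (g * g) = φ g := by
        rw [← sub_eq_zero, ← map_sub]
        apply hφ0
        rw [map_sub, map_mul, e2, sub_self]
      rw [hψ, mul_one, h5]
      rcases (hφ.sq g).lt_or_eq with h6 | h6
      · rwa [h5] at h6
      · rw [h5] at h6
        exact absurd h6.symm hφg
    refine hψp.roots hf (m := m) ?_ hψ1 (minpoly.aeval ℚ z)
    intro h
    rw [hψ]
    apply hφ0
    rw [show g * g * (f ^ m * h) = g * (g * f ^ m) * h by ring, map_mul, map_mul, e1, mul_zero,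
      zero_mul]
  refine ⟨⟨p, hp0, hpa, hroots⟩, ?_⟩
  obtain ⟨q, hq⟩ := hrat 1
  rw [pow_one] at hq
  refine ⟨q, ?_, hq⟩
  obtain ⟨S, hS, hqS⟩ := exists_spec_one a hp0 hpa hq
  have h1 : ∀ S : Multiset ℂ, (∀ l ∈ S, 0 ≤ l.re) → 0 ≤ S.sum.re := by
    intro S
    induction S using Multiset.induction_on with
    | empty => intro _; simp
    | cons x s ih =>
      intro hS
      rw [Multiset.sum_cons, Complex.add_re]
      exact add_nonneg (hS x (Multiset.mem_cons_self x s))
        (ih (fun l hl => hS l (Multiset.mem_cons_of_mem hl)))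
  have h2 := h1 S (fun l hl => (hroots l (hS l hl)).2)
  rw [← hqS, Complex.ratCast_re] at h2
  exact_mod_cast h2

end Pool.Agent.H846.Det
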