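import Pool.Agent.H846.Det.Defs
import Pool.Agent.H846.Det.Form
import Pool.Agent.H846.Det.Trace

/-!
# Transport of the Lefschetz operators along comparison isomorphisms
-/

open CategoryTheory AlgebraicGeometry Finset Polynomial

universe u v

namespace Pool.Agent.H846.Det

open Pool.Agent.H914 Pool.Agent.H914.VarClass Pool.Agent.H914.VarClass.Obj
  Pool.Agent.H914.WeilCohomology Pool.Agent.H281R3.HT Pool.Agent.W552 Pool.Agent.W539.Ker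
  Pool.Agent.R911.Iso Pool.Agent.H447

variable {k : Type u} [Field k] {𝒱 : VarClass k} {ops : CycleOps 𝒱}
  {k₀ : Type u} [Field k₀] {𝒱₀ : VarClass k₀} {ops₀ : CycleOps 𝒱₀}
  {W : WeilCohomology.{u, v} ops} {W₀ : WeilCohomology.{u, v} ops₀}

/-- The operators `T` and `T₀` are compatible with the isomorphisms `s` and `t`. -/
def Rel {X Y : 𝒱.Obj} {X₀ Y₀ : 𝒱₀.Obj} (s : W.H X ≃+* W₀.H X₀) (t : W.H Y ≃+* W₀.H Y₀)
    (T : W.H X →ₗ[W.K] W.H Y) (T₀ : W₀.H X₀ →ₗ[W₀.K] W₀.H Y₀) : Prop :=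
  ∀ a, t (T a) = T₀ (s a)

section Rel

variable {X Y Z : 𝒱.Obj} {X₀ Y₀ Z₀ : 𝒱₀.Obj} {s : W.H X ≃+* W₀.H X₀} {t : W.H Y ≃+* W₀.H Y₀}
  {r : W.H Z ≃+* W₀.H Z₀}

lemma Rel.comp {T : W.H X →ₗ[W.K] W.H Y} {T₀ : W₀.H X₀ →ₗ[W₀.K] W₀.H Y₀}
    {S : W.H Y →ₗ[W.K] W.H Z} {S₀ : W₀.H Y₀ →ₗ[W₀.K] W₀.H Z₀} (hS : Rel t r S S₀)
    (hT : Rel s t T T₀) : Rel s r (S ∘ₗ T) (S₀ ∘ₗ T₀) := by
  intro a
  rw [LinearMap.comp_apply, hS, hT, LinearMap.comp_apply]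

lemma Rel.mul {T S : Module.End W.K (W.H X)} {T₀ S₀ : Module.End W₀.K (W₀.H X₀)}
    (hS : Rel s s S S₀) (hT : Rel s s T T₀) : Rel s s (S * T) (S₀ * T₀) := hS.comp hT

lemma Rel.sub {T S : W.H X →ₗ[W.K] W.H Y} {T₀ S₀ : W₀.H X₀ →ₗ[W₀.K] W₀.H Y₀}
    (hS : Rel s t S S₀) (hT : Rel s t T T₀) : Rel s t (S - T) (S₀ - T₀) := by
  intro a
  rw [LinearMap.sub_apply, map_sub, hS, hT, LinearMap.sub_apply]

lemma Rel.add {T S : W.H X →ₗ[W.K] W.H Y} {T₀ S₀ : W₀.H X₀ →ₗ[W₀.K] W₀.H Y₀}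
    (hS : Rel s t S S₀) (hT : Rel s t T T₀) : Rel s t (S + T) (S₀ + T₀) := by
  intro a
  rw [LinearMap.add_apply, map_add, hS, hT, LinearMap.add_apply]

lemma Rel.neg {T : W.H X →ₗ[W.K] W.H Y} {T₀ : W₀.H X₀ →ₗ[W₀.K] W₀.H Y₀}
    (hT : Rel s t T T₀) : Rel s t (-T) (-T₀) := by
  intro a
  rw [LinearMap.neg_apply, map_neg, hT, LinearMap.neg_apply]

lemma Rel.one : Rel s s (1 : Module.End W.K (W.H X)) (1 : Module.End W₀.K (W₀.H X₀)) :=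
  fun _ => rfl

lemma Rel.pow {T : Module.End W.K (W.H X)} {T₀ : Module.End W₀.K (W₀.H X₀)}
    (hT : Rel s s T T₀) (n : ℕ) : Rel s s (T ^ n) (T₀ ^ n) := by
  induction n with
  | zero => exact Rel.one
  | succ n ih => rw [pow_succ, pow_succ]; exact ih.mul hT

lemma Rel.unique {T : W.H X →ₗ[W.K] W.H Y} {T₀ T₀' : W₀.H X₀ →ₗ[W₀.K] W₀.H Y₀}
    (h : Rel s t T T₀) (h' : Rel s t T T₀') : T₀ = T₀' := by
  apply LinearMap.ext
  intro a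
  obtain ⟨b, rfl⟩ := s.surjective a
  rw [← h b, h' b]

lemma Rel.smul {σ : W.K ≃+* W₀.K} (ht : ∀ (c : W.K) (x : W.H Y), t (c • x) = σ c • t x)
    {T : W.H X →ₗ[W.K] W.H Y} {T₀ : W₀.H X₀ →ₗ[W₀.K] W₀.H Y₀} (hT : Rel s t T T₀) (c : W.K) :
    Rel s t (c • T) (σ c • T₀) := by
  intro a
  rw [LinearMap.smul_apply, ht, hT, LinearMap.smul_apply]

lemma Rel.rat_smul {σ : W.K ≃+* W₀.K} (ht : ∀ (c : W.K) (x : W.H Y), t (c • x) = σ c • t x)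
    {T : W.H X →ₗ[W.K] W.H Y} {T₀ : W₀.H X₀ →ₗ[W₀.K] W₀.H Y₀} (hT : Rel s t T T₀) (q : ℚ) :
    Rel s t ((q : W.K) • T) ((q : W₀.K) • T₀) := by
  have := hT.smul ht (q : W.K)
  rwa [map_ratCast] at this

/-- Polynomials. -/
lemma Rel.ev {σ : W.K ≃+* W₀.K} (hs : ∀ (c : W.K) (x : W.H X), s (c • x) = σ c • s x)
    {T : Module.End W.K (W.H X)} {T₀ : Module.End W₀.K (W₀.H X₀)}
    (hT : Rel s s T T₀) (p : ℚ[X]) : Rel s s (ev T p) (ev T₀ p) := by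
  induction p using Polynomial.induction_on' with
  | add p q hp hq => rw [map_add, map_add]; exact hp.add hq
  | monomial n a =>
    rw [← mul_one a, ← smul_eq_mul, ← smul_monomial, ev_smul, ev_smul, ← X_pow_eq_monomial,
      map_pow, map_pow, ev_X, ev_X]
    exact (hT.pow n).rat_smul hs a

/-- Algebraic operators specialise. -/
lemma exists_rel (h : CorrespondencesSpecialize s t) {T : W.H X →ₗ[W.K] W.H Y}
    (hT : AOp W X Y T) : ∃ T₀, AOp W₀ X₀ Y₀ T₀ ∧ Rel s t T T₀ := by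
  obtain ⟨c, hc, rfl⟩ := hT
  refine AS.ind (p := fun c => ∃ T₀, AOp W₀ X₀ Y₀ T₀ ∧ Rel s t (W.corr c) T₀) ?_ ?_ hc
  · rintro j _ ⟨z, hz, rfl⟩
    obtain ⟨z₀, hz₀, hzz⟩ := h j z hz
    exact ⟨_, ⟨_, AS.of ⟨z₀, hz₀, rfl⟩, rfl⟩, hzz⟩
  · rintro c c' ⟨T₀, h1, h2⟩ ⟨T₀', h1', h2'⟩
    refine ⟨T₀ + T₀', h1.add h1', ?_⟩
    rw [corr_add]
    exact h2.add h2'

end Rel

variable {P Q : Polarized 𝒱} {P₀ Q₀ : Polarized 𝒱₀} {σ : W.K ≃+* W₀.K}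
  {s : W.H P.X ≃+* W₀.H P₀.X} {t : W.H Q.X ≃+* W₀.H Q₀.X}

section Raw

variable (hs : IsComparison W W₀ P P₀ σ s)

include hs

lemma IsComparison.smul' (c : W.K) (x : W.H P.X) : s (c • x) = σ c • s x := hs.map.smul c x

lemma IsComparison.mem' (j : ℕ) (x : W.H P.X) (hx : x ∈ W.gr P.X j) : s x ∈ W₀.gr P₀.X j :=
  hs.map.mem j x hx

lemma IsComparison.tr_eq' (x : W.H P.X) : W₀.tr P₀.X (s x) = σ (W.tr P.X x) := hs.map.tr_eq x

lemma IsComparison.cl_eq' : s (W.cl P.X P.D) = W₀.cl P₀.X P₀.D := hs.cl_eq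

end Raw

section One

variable (hs : IsComparison W W₀ P P₀ σ s)

include hs

lemma rel_L : Rel s s (LinearMap.mulLeft W.K (W.cl P.X P.D))
    (LinearMap.mulLeft W₀.K (W₀.cl P₀.X P₀.D)) := by
  intro a
  rw [LinearMap.mulLeft_apply, map_mul, hs.cl_eq', LinearMap.mulLeft_apply]

lemma rel_wt : Rel s s (wt (W.isInternal P.X) P.X.dim) (wt (W₀.isInternal P₀.X) P₀.X.dim) := by
  intro a
  refine gr_induction (W.isInternal P.X) (p := fun a => s (wt (W.isInternal P.X) P.X.dim a) =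
    wt (W₀.isInternal P₀.X) P₀.X.dim (s a)) ?_ ?_ a
  swap
  · intro a b ha hb
    rw [map_add, map_add, ha, hb, map_add, map_add]
  intro i a ha
  rw [Fr.wt_gr ha, Fr.wt_gr (hs.mem' i a ha), hs.smul', map_sub, map_natCast, map_natCast,
    hs.dim_eq]

/-- The lowering operator specialises to a lowering operator. -/
theorem exists_gd_spec {f : Module.End W.K (W.H P.X)} (G : Gd W P.X P.D f)
    (h : CorrespondencesSpecialize s s) :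
    ∃ f₀, Gd W₀ P₀.X P₀.D f₀ ∧ Rel s s f f₀ := by
  obtain ⟨f₀, hf₀, hrel⟩ := exists_rel h G.fr.aop
  refine ⟨f₀, ?_, hrel⟩
  have h2 : ∀ {T : Module.End W.K (W.H P.X)} {T₀ : Module.End W₀.K (W₀.H P₀.X)},
      Rel s s T T₀ → Rel s s (2 * T) (2 * T₀) := by
    intro T T₀ hT
    rw [two_mul, two_mul]
    exact hT.add hT
  have hL := rel_L hs
  have hw := rel_wt hs
  apply gd_of_fr
  refine ⟨hs.isCyc, ⟨?_, ?_, ?_⟩, hf₀⟩
  · have h3 := (hL.mul hrel).sub (hrel.mul hL)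
    rw [G.fr.sl2.ef] at h3
    exact h3.unique hw
  · have h3 := (hw.mul hL).sub (hL.mul hw)
    rw [G.fr.sl2.he] at h3
    exact h3.unique (h2 hL)
  · have h3 := (hw.mul hrel).sub (hrel.mul hw)
    rw [G.fr.sl2.hf] at h3
    exact h3.unique (h2 hrel).neg

/-- The star operators are compatible. -/
theorem rel_st {f : Module.End W.K (W.H P.X)} (G : Gd W P.X P.D f)
    {f₀ : Module.End W₀.K (W₀.H P₀.X)} (G₀ : Gd W₀ P₀.X P₀.D f₀) :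
    Rel s s (st W P.X P.D f) (st W₀ P₀.X P₀.D f₀) := by
  have hL := rel_L hs
  intro x
  refine lef_induction' (W.isInternal P.X) (n := P.X.dim) G.ls.hL G.ls.hbd G.ls.hHL
    (p := fun x => s (st W P.X P.D f x) = st W₀ P₀.X P₀.D f₀ (s x))
    (fun a b ha hb => by rw [map_add, map_add, ha, hb, map_add, map_add]) ?_ x
  intro i hi a ha hp j
  by_cases hj : P.X.dim - i < j
  · rw [L_pow_gt hp hj]; simp
  push Not at hj
  have hp₀ : ((LinearMap.mulLeft W₀.K (W₀.cl P₀.X P₀.D)) ^ (P₀.X.dim - i + 1)) (s a) = 0 := by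
    rw [hs.dim_eq, ← hL.pow _ a, hp, map_zero]
  have ha₀ := hs.mem' i a ha
  have hi₀ : i ≤ P₀.X.dim := by rw [hs.dim_eq]; exact hi
  have hj₀ : j ≤ P₀.X.dim - i := by rw [hs.dim_eq]; exact hj
  rw [hL.pow j a, st_apply (pow_L_mem G.ls.hL ha j), st_apply (pow_L_mem G₀.ls.hL ha₀ j), wop,
    wop, G.ls.w_L_pow hi ha hp hj, G₀.ls.w_L_pow hi₀ ha₀ hp₀ hj₀, hs.smul', hs.smul', hL.pow _ a,
    hs.dim_eq]
  simp only [map_mul, map_pow, map_neg, map_one, map_natCast, map_inv₀, map_intCast]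

/-- The forms are compatible. -/
theorem bf_spec {f : Module.End W.K (W.H P.X)} (G : Gd W P.X P.D f)
    {f₀ : Module.End W₀.K (W₀.H P₀.X)} (G₀ : Gd W₀ P₀.X P₀.D f₀) (x y : W.H P.X) :
    bf W₀ P₀.X P₀.D f₀ (s x) (s y) = σ (bf W P.X P.D f x y) := by
  rw [bf_apply, bf_apply, ← rel_st hs G G₀ y, ← map_mul, hs.tr_eq']

end One

/-- Adjoints are compatible. -/
theorem adj_spec (hs : IsComparison W W₀ P P₀ σ s) (ht : IsComparison W W₀ Q Q₀ σ t)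
    {f : Module.End W.K (W.H P.X)} (G : Gd W P.X P.D f)
    {f₀ : Module.End W₀.K (W₀.H P₀.X)} (G₀ : Gd W₀ P₀.X P₀.D f₀)
    {g : Module.End W.K (W.H Q.X)} (G' : Gd W Q.X Q.D g)
    {g₀ : Module.End W₀.K (W₀.H Q₀.X)} (G₀' : Gd W₀ Q₀.X Q₀.D g₀)
    {u : W.H P.X →ₗ[W.K] W.H Q.X} {u' : W.H Q.X →ₗ[W.K] W.H P.X}
    {u₀ : W₀.H P₀.X →ₗ[W₀.K] W₀.H Q₀.X} {u₀' : W₀.H Q₀.X →ₗ[W₀.K] W₀.H P₀.X}
    (hu : Rel s t u u₀) (hu' : Rel t s u' u₀') (h : Adj W P.D f Q.D g u u') :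
    Adj W₀ P₀.D f₀ Q₀.D g₀ u₀ u₀' := by
  intro p q
  obtain ⟨p, rfl⟩ := s.surjective p
  obtain ⟨q, rfl⟩ := t.surjective q
  rw [← hu p, ← hu' q, bf_spec ht G' G₀', bf_spec hs G G₀, h]

end Pool.Agent.H846.Det
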