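import Pool.Graph.R_pool_sql_team_seeded_b0a926ef.R911.Iso.Tfae

/-!
# Functionals on `ℚ[x]` which are nonnegative on squares
-/

open Polynomial Matrix

namespace Pool.Agent.H846.Det

section Dense

/-- A rational quadratic form which is nonnegative on rational vectors is nonnegative on real
vectors. -/
lemma nonneg_real {n : ℕ} (S : Matrix (Fin n) (Fin n) ℚ) (h : ∀ x : Fin n → ℚ, 0 ≤ x ⬝ᵥ S *ᵥ x)
    (x : Fin n → ℝ) : 0 ≤ x ⬝ᵥ (S.map (algebraMap ℚ ℝ)) *ᵥ x := by
  have hd : DenseRange (fun (q : Fin n → ℚ) (i : Fin n) => ((q i : ℚ) : ℝ)) := by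
    have := DenseRange.piMap (X := fun _ : Fin n => ℚ) (Y := fun _ : Fin n => ℝ)
      (f := fun _ => ((↑) : ℚ → ℝ)) (fun _ => Rat.denseRange_cast)
    exact this
  have hc : IsClosed {x : Fin n → ℝ | 0 ≤ x ⬝ᵥ (S.map (algebraMap ℚ ℝ)) *ᵥ x} := by
    apply isClosed_le continuous_const
    simp only [dotProduct, Matrix.mulVec]
    fun_prop
  refine hd.induction_on (p := fun x => 0 ≤ x ⬝ᵥ (S.map (algebraMap ℚ ℝ)) *ᵥ x) x hc ?_
  intro q
  have h1 := h q
  have h2 : ((fun i => ((q i : ℚ) : ℝ)) ⬝ᵥ (S.map (algebraMap ℚ ℝ)) *ᵥ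
      (fun i => ((q i : ℚ) : ℝ))) = ((q ⬝ᵥ S *ᵥ q : ℚ) : ℝ) := by
    simp only [dotProduct, Matrix.mulVec, Matrix.map_apply, eq_ratCast]
    push_cast
    rfl
  rw [h2]
  exact_mod_cast h1

end Dense

section Lin

variable {V : Type*} [AddCommGroup V] [Module ℚ V] [Module.Finite ℚ V]

/-- A real root of the minimal polynomial is an eigenvalue of the real matrix. -/
lemma exists_eigvec_real {n : ℕ} (b : Module.Basis (Fin n) ℚ V) (T : V →ₗ[ℚ] V) {lam : ℝ}
    (h : aeval lam (minpoly ℚ T) = 0) : ∃ v : Fin n → ℝ, v ≠ 0 ∧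
      ((LinearMap.toMatrix b b T).map (algebraMap ℚ ℝ)) *ᵥ v = lam • v := by
  classical
  set M := LinearMap.toMatrix b b T with hM
  have h1 : aeval lam M.charpoly = 0 := by
    have h2 : minpoly ℚ T ∣ M.charpoly := by
      rw [hM, LinearMap.charpoly_toMatrix]
      exact LinearMap.minpoly_dvd_charpoly T
    obtain ⟨r, hr⟩ := h2
    rw [hr, map_mul, h, zero_mul]
  have h2 : (Matrix.scalar (Fin n) lam - M.map (algebraMap ℚ ℝ)).det = 0 := by
    rw [← Matrix.eval_charpoly, Matrix.charpoly_map, eval_map_algebraMap, h1]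
  obtain ⟨v, hv, hv2⟩ := Matrix.exists_mulVec_eq_zero_iff.2 h2
  refine ⟨v, hv, ?_⟩
  rw [Matrix.sub_mulVec, sub_eq_zero] at hv2
  rw [← hv2, Matrix.scalar_apply, Matrix.diagonal_const_mulVec]

/-- **Real eigenvalues of nonnegative operators.** -/
theorem eig_nonneg (f : V →ₗ[ℚ] V →ₗ[ℚ] ℚ) (hs : ∀ x y, f x y = f y x)
    (hp : ∀ x, x ≠ 0 → 0 < f x x) (T : V →ₗ[ℚ] V) (hT : ∀ x, 0 ≤ f x (T x))
    {lam : ℝ} (h : aeval lam (minpoly ℚ T) = 0) : 0 ≤ lam := by
  classical
  obtain ⟨b, hb⟩ := LinearMap.BilinForm.exists_orthogonal_basis (B := f)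
    ⟨fun x y => hs x y⟩
  have hb' : ∀ i j, i ≠ j → f (b i) (b j) = 0 := fun i j hij => hb hij
  obtain ⟨v, hv, hv2⟩ := exists_eigvec_real b T h
  set M := LinearMap.toMatrix b b T with hM
  set d := fun i => f (b i) (b i) with hd
  have hf : ∀ x y : Fin (Module.finrank ℚ V) → ℚ, f (∑ i, x i • b i) (∑ j, y j • b j) =
      ∑ i, x i * (d i * y i) := by
    intro x y
    rw [map_sum f, LinearMap.sum_apply]
    apply Finset.sum_congr rfl
    intro i _
    rw [map_sum, Finset.sum_eq_single i]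
    · rw [map_smul, map_smul, LinearMap.smul_apply, smul_eq_mul, smul_eq_mul]
      ring
    · intro j _ hj
      rw [map_smul, map_smul, LinearMap.smul_apply, hb' i j (Ne.symm hj), smul_zero, smul_zero]
    · intro h; exact absurd (Finset.mem_univ _) h
  have hTx : ∀ x : Fin (Module.finrank ℚ V) → ℚ, T (∑ i, x i • b i) = ∑ i, (M *ᵥ x) i • b i := by
    intro x
    rw [← b.sum_repr (T (∑ i, x i • b i))]
    apply Finset.sum_congr rfl
    intro i _
    congr 1
    have h1 := LinearMap.toMatrix_mulVec_repr b b T (∑ i, x i • b i)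
    have h2 : (b.repr (∑ i, x i • b i) : Fin (Module.finrank ℚ V) → ℚ) = x := by
      funext j
      rw [Module.Basis.repr_sum_self]
    rw [h2] at h1
    exact (congrFun h1 i).symm
  have h1 := nonneg_real (Matrix.diagonal d * M) (by
    intro x
    have h2 := hT (∑ i, x i • b i)
    rw [hTx, hf] at h2
    rw [← Matrix.mulVec_mulVec, dotProduct]
    simpa [Matrix.mulVec_diagonal] using h2) v
  rw [Matrix.map_mul, ← Matrix.mulVec_mulVec, hv2, Matrix.mulVec_smul, dotProduct_smul,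
    smul_eq_mul] at h1
  have h3 : 0 < v ⬝ᵥ ((Matrix.diagonal d).map (algebraMap ℚ ℝ)) *ᵥ v := by
    rw [Matrix.diagonal_map (map_zero _), dotProduct]
    obtain ⟨i, hi⟩ := Function.ne_iff.1 hv
    have hv0 : v i ≠ 0 := hi
    apply Finset.sum_pos'
    · intro j _
      rw [Matrix.mulVec_diagonal]
      have h4 : (0 : ℝ) ≤ (d j : ℚ) := by exact_mod_cast (hp _ (b.ne_zero j)).le
      have : v j * ((algebraMap ℚ ℝ) (d j) * v j) = ((d j : ℚ) : ℝ) * (v j * v j) := by
        rw [eq_ratCast]; ring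
      rw [this]
      exact mul_nonneg h4 (mul_self_nonneg _)
    · refine ⟨i, Finset.mem_univ _, ?_⟩
      rw [Matrix.mulVec_diagonal]
      have h4 : (0 : ℝ) < (d i : ℚ) := by exact_mod_cast (hp _ (b.ne_zero i))
      have : v i * ((algebraMap ℚ ℝ) (d i) * v i) = ((d i : ℚ) : ℝ) * (v i * v i) := by
        rw [eq_ratCast]; ring
      rw [this]
      exact mul_pos h4 (mul_self_pos.2 hv0)
  exact nonneg_of_mul_nonneg_left h1 h3

end Lin

section Functional

/-- A linear functional on the rational polynomials which is nonnegative on the squares, and on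
`x` times the squares. -/
structure PosFun (φ : ℚ[X] →ₗ[ℚ] ℚ) : Prop where
  sq : ∀ g, 0 ≤ φ (g * g)
  xsq : ∀ g, 0 ≤ φ (X * (g * g))

variable {φ : ℚ[X] →ₗ[ℚ] ℚ}

/-- The inequality of Cauchy and Schwarz. -/
lemma PosFun.cs (hφ : PosFun φ) {g : ℚ[X]} (hg : φ (g * g) = 0) (h : ℚ[X]) :
    φ (g * h) = 0 := by
  by_contra h0
  have key : ∀ t : ℚ, 0 ≤ φ (h * h) + 2 * t * φ (g * h) := by
    intro t
    have h1 := hφ.sq (h + t • g)
    have h2 : (h + t • g) * (h + t • g) = h * h + (2 * t) • (g * h) + (t * t) • (g * g) := by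
      simp only [smul_eq_C_mul]
      rw [C_mul, C_mul]
      have : C (2 : ℚ) = 2 := rfl
      rw [this]
      ring
    rw [h2, map_add, map_add, map_smul, map_smul, hg, smul_eq_mul, smul_eq_mul, mul_zero,
      add_zero] at h1
    exact h1
  have h1 := key (-(φ (h * h) + 1) / (2 * φ (g * h)))
  have h2 : 2 * (-(φ (h * h) + 1) / (2 * φ (g * h))) * φ (g * h) = -(φ (h * h) + 1) := by
    field_simp
  rw [h2] at h1
  linarith

/-- The functional vanishes on the multiples of `f` if it vanishes on the multiples of a power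
of `f`. -/
lemma PosFun.reduce (hφ : PosFun φ) {f : ℚ[X]} {m : ℕ} (h : ∀ g, φ (f ^ m * g) = 0) (g : ℚ[X]) :
    φ (f * g) = 0 := by
  have key : ∀ m, (∀ g, φ (f ^ (m + 1) * g) = 0) → ∀ g, φ (f * g) = 0 := by
    intro m
    induction m with
    | zero => intro h g; simpa using h g
    | succ m ih =>
      intro h
      apply ih
      intro g
      have h1 : φ ((f ^ (m + 1) * g) * (f ^ (m + 1) * g)) = 0 := by
        have h2 := h (f ^ m * (g * g))
        rw [← h2]
        congr 1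
        ring
      have h2 := hφ.cs h1 1
      rwa [mul_one] at h2
  rcases Nat.eq_zero_or_pos m with rfl | hm
  · have := h (f * g)
    rwa [pow_zero, one_mul] at this
  · obtain ⟨m', rfl⟩ : ∃ m', m = m' + 1 := ⟨m - 1, by omega⟩
    exact key m' h g

/-- **The roots of the relations of a nonnegative functional.** -/
theorem PosFun.roots (hφ : PosFun φ) {f : ℚ[X]} (hf : Irreducible f) {m : ℕ}
    (h : ∀ g, φ (f ^ m * g) = 0) (h1 : 0 < φ 1) {z : ℂ} (hz : aeval z f = 0) :
    z.im = 0 ∧ 0 ≤ z.re := by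
  have hred := hφ.reduce h
  have : Fact (Irreducible f) := ⟨hf⟩
  let F := AdjoinRoot f
  have : Module.Finite ℚ F := (AdjoinRoot.powerBasis hf.ne_zero).finite
  -- the functional on the field
  let ψ : F →ₗ[ℚ] ℚ := Submodule.liftQ ((Ideal.span {f}).restrictScalars ℚ) φ (by
    intro g hg
    obtain ⟨c, hc⟩ := Ideal.mem_span_singleton.1 (show g ∈ Ideal.span {f} from hg)
    rw [LinearMap.mem_ker, hc]
    exact hred c)
  have hψ : ∀ g : ℚ[X], ψ (AdjoinRoot.mk f g) = φ g := fun g => rfl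
  have hsurj : ∀ x : F, ∃ g, AdjoinRoot.mk f g = x := AdjoinRoot.mk_surjective
  let B : F →ₗ[ℚ] F →ₗ[ℚ] ℚ := (LinearMap.mul ℚ F).compr₂ ψ
  have hB : ∀ x y, B x y = ψ (x * y) := fun x y => rfl
  have hs : ∀ x y, B x y = B y x := by
    intro x y
    rw [hB, hB, mul_comm]
  have hp : ∀ x, x ≠ 0 → 0 < B x x := by
    intro x hx
    obtain ⟨g, rfl⟩ := hsurj x
    obtain ⟨g', hg'⟩ := hsurj (AdjoinRoot.mk f g)⁻¹
    rw [hB, ← map_mul, hψ]
    rcases (hφ.sq g).lt_or_eq with h2 | h2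
    · exact h2
    exfalso
    have h3 := hφ.cs h2.symm g'
    rw [← hψ, map_mul, hg', mul_inv_cancel₀ hx, ← map_one (AdjoinRoot.mk f), hψ] at h3
    exact h1.ne' h3
  let T : F →ₗ[ℚ] F := LinearMap.mulLeft ℚ (AdjoinRoot.root f)
  have hT : ∀ x y, B (T x) y = B x (T y) := by
    intro x y
    rw [hB, hB]
    change ψ (AdjoinRoot.root f * x * y) = ψ (x * (AdjoinRoot.root f * y))
    congr 1
    ring
  have hT0 : ∀ x, 0 ≤ B x (T x) := by
    intro x
    obtain ⟨g, rfl⟩ := hsurj x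
    rw [hB]
    change 0 ≤ ψ (AdjoinRoot.mk f g * (AdjoinRoot.mk f X * AdjoinRoot.mk f g))
    rw [← map_mul, ← map_mul, hψ]
    have := hφ.xsq g
    rwa [show X * (g * g) = g * (X * g) by ring] at this
  have hmin : minpoly ℚ T = f * C (f.leadingCoeff⁻¹) := by
    rw [← AdjoinRoot.minpoly_root hf.ne_zero]
    exact minpoly.algHom_eq (Algebra.lmul ℚ F) Algebra.lmul_injective (AdjoinRoot.root f)
  have hz' : aeval z (minpoly ℚ T) = 0 := by
    rw [hmin, map_mul, hz, zero_mul]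
  obtain ⟨e1, -, -⟩ := R911.Iso.eig_of_pos B hs hp T T hT hz'
  have him := e1 rfl
  refine ⟨him, ?_⟩
  apply eig_nonneg B hs hp T hT0
  have h2 : z = ((z.re : ℝ) : ℂ) := by
    apply Complex.ext
    · simp
    · simpa using him
  rw [h2] at hz'
  have h3 : (algebraMap ℝ ℂ) (aeval z.re (minpoly ℚ T)) = 0 := by
    rw [← Polynomial.aeval_algebraMap_apply]
    exact hz'
  exact (algebraMap ℝ ℂ).injective (by rw [h3, map_zero])

end Functional

end Pool.Agent.H846.Det
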