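import Pool.Graph.R_seed8.H281R3.HT.Defs
import Pool.Graph.R_seed8.Y106.One.Defs

/-!
# Specializations of polarized varieties: definitions
-/

open CategoryTheory AlgebraicGeometry

universe u v

namespace Pool.Agent.H846.Det

open Pool.Agent.H914 Pool.Agent.H914.VarClass Pool.Agent.H914.VarClass.Obj
  Pool.Agent.H281R3.HT

variable {k : Type u} [Field k] {𝒱 : VarClass k} {ops : CycleOps 𝒱}
  {k₀ : Type u} [Field k₀] {𝒱₀ : VarClass k₀} {ops₀ : CycleOps 𝒱₀}

section Basic

variable (W : WeilCohomology.{u, v} ops) (W₀ : WeilCohomology.{u, v} ops₀)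

/-- The isomorphisms of the coefficient fields. -/
abbrev CoefIso : Type v := W.K ≃+* W₀.K

/-- The isomorphisms of rings from `H(X)` to `H(X₀)`. -/
abbrev CohIso (X : 𝒱.Obj) (X₀ : 𝒱₀.Obj) : Type v := W.H X ≃+* W₀.H X₀

variable {W W₀} in
/-- The image of a cohomology class. -/
def isoMap {X : 𝒱.Obj} {X₀ : 𝒱₀.Obj} (s : CohIso W W₀ X X₀) (x : W.H X) : W₀.H X₀ := s x


/-- The class of a cycle. -/
noncomputable def classOf (X : 𝒱.Obj) (z : X.Cycles) : W.H X := W.cl X z

/-- The image of the class `x` of `X` under the correspondence `z` from `X` to `Y`. -/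
noncomputable def corrMap {X Y : 𝒱.Obj} (z : (X.prod Y).Cycles) (x : W.H X) : W.H Y :=
  W.corr (classOf W (X.prod Y) z) x

end Basic

/-- The isomorphism of rings `s` from `H(X)` to `H(X₀)` is semilinear for the isomorphism `σ` of
the coefficient fields, preserves the degrees, and is compatible with the orientations and with
the classes of the divisors. For a good reduction or specialisation `X₀` of `X` and the `ℓ`-adic
theories the specialisation isomorphisms have these properties. -/
structure IsComparison (W : WeilCohomology.{u, v} ops) (W₀ : WeilCohomology.{u, v} ops₀)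
    (P : Polarized 𝒱) (P₀ : Polarized 𝒱₀) (σ : CoefIso W W₀) (s : CohIso W W₀ P.X P₀.X) :
    Prop where
  dim_eq : P₀.X.dim = P.X.dim
  isCyc : P₀.X.IsCyc 1 P₀.D
  map : Pool.Agent.Y106.One.IsComparison σ s (W.gr P.X) (W₀.gr P₀.X) (W.tr P.X) (W₀.tr P₀.X)
  cl_eq : isoMap s (classOf W P.X P.D) = classOf W₀ P₀.X P₀.D

/-- The correspondence `z` from `X` to `Y` specialises to the correspondence `z₀` from `X₀` to
`Y₀`: their operators are compatible with the isomorphisms `s` from `H(X)` to `H(X₀)` and `t` from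
`H(Y)` to `H(Y₀)`. -/
def SpecializesTo {W : WeilCohomology.{u, v} ops} {W₀ : WeilCohomology.{u, v} ops₀}
    {X Y : 𝒱.Obj} {X₀ Y₀ : 𝒱₀.Obj} (s : CohIso W W₀ X X₀) (t : CohIso W W₀ Y Y₀)
    (z : (X.prod Y).Cycles) (z₀ : (X₀.prod Y₀).Cycles) : Prop :=
  ∀ a, isoMap t (corrMap W z a) = corrMap W₀ z₀ (isoMap s a)

/-- All algebraic correspondences from `X` to `Y` specialise. -/
def CorrespondencesSpecialize {W : WeilCohomology.{u, v} ops} {W₀ : WeilCohomology.{u, v} ops₀}
    {X Y : 𝒱.Obj} {X₀ Y₀ : 𝒱₀.Obj} (s : CohIso W W₀ X X₀) (t : CohIso W W₀ Y Y₀) : Prop :=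
  ∀ (p : ℕ) (z : (X.prod Y).Cycles), (X.prod Y).IsCyc p z →
    ∃ z₀, (X₀.prod Y₀).IsCyc p z₀ ∧ SpecializesTo s t z z₀

/-- A specialisation of the polarized varieties `P` and `Q` over `k` to polarized varieties `P₀`
and `Q₀` over another field `k₀`, together with the comparison isomorphisms in cohomology. -/
structure Specialization (W : WeilCohomology.{u, v} ops) (W₀ : WeilCohomology.{u, v} ops₀)
    (P Q : Polarized 𝒱) (P₀ Q₀ : Polarized 𝒱₀) where
  /-- the isomorphism of the coefficient fields -/
  σ : CoefIso W W₀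
  /-- the comparison isomorphism for the first variety -/
  s : CohIso W W₀ P.X P₀.X
  /-- the comparison isomorphism for the second variety -/
  t : CohIso W W₀ Q.X Q₀.X
  fst : IsComparison W W₀ P P₀ σ s
  snd : IsComparison W W₀ Q Q₀ σ t
  pp : CorrespondencesSpecialize s s
  pq : CorrespondencesSpecialize s t
  qp : CorrespondencesSpecialize t s
  qq : CorrespondencesSpecialize t t

/-- The polarized variety `P` satisfies the hard Lefschetz theorem and the Lefschetz standard
conjecture. -/
structure IsLefschetz (W : WeilCohomology.{u, v} ops) (P : Polarized 𝒱) : Prop where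
  isCyc : P.X.IsCyc 1 P.D
  hard : HardLefschetz W P.X P.D
  std : LefschetzB W P.X P.D

end Pool.Agent.H846.Det
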