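import Pool.Agent.H846.Det.Defs
import Pool.Graph.R_pool_sql_team_seeded_b0a926ef.R911.Iso.Defs

/-!
# Detection of correspondences by algebraic classes on specializations: definitions
-/

open CategoryTheory AlgebraicGeometry

universe u v

namespace Pool.Agent.H846.Det

open Pool.Agent.H914 Pool.Agent.H914.VarClass Pool.Agent.H914.VarClass.Obj
  Pool.Agent.H281R3.HT Pool.Agent.R911.Iso

variable {k : Type u} [Field k] {𝒱 : VarClass k} {ops : CycleOps 𝒱}
  {k₀ : Type u} [Field k₀] {𝒱₀ : VarClass k₀} {ops₀ : CycleOps 𝒱₀}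

/-- The standard conjecture of Hodge type for the polarized variety `P`: for `2 n ≤ dim X` the
number `(-1) ^ n deg (z · D ^ (dim X - 2 n) · z)` is positive for all primitive cycles `z` of
codimension `n` which are not numerically equivalent to zero. -/
def Hodge (W : WeilCohomology.{u, v} ops) (P : Polarized 𝒱) : Prop := HodgeStandard W P.X P.D

/-- The correspondence `e` has a specialisation `e₀`, and there is an algebraic cycle `z` on
`Z × X₀` such that the composition of the correspondence `z` from `Z` to `X₀` with `e₀` is not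
numerically equivalent to zero. -/
def DetectedOn {W : WeilCohomology.{u, v} ops} {W₀ : WeilCohomology.{u, v} ops₀}
    {P Q : Polarized 𝒱} {P₀ Q₀ : Polarized 𝒱₀} (S : Specialization W W₀ P Q P₀ Q₀)
    (Z : 𝒱₀.Obj) (e : (P.X.prod P.X).Cycles) : Prop :=
  ∃ (e₀ : (P₀.X.prod P₀.X).Cycles) (p : ℕ) (z : (Z.prod P₀.X).Cycles),
    (P₀.X.prod P₀.X).IsCyc P₀.X.dim e₀ ∧ SpecializesTo S.s S.s e e₀ ∧
    p ≤ (Z.prod P₀.X).dim ∧ (Z.prod P₀.X).IsCyc p z ∧
    ¬ NumZero ops₀ (Z.prod P₀.X) p (compCyc ops₀ z e₀)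

/-- The correspondence `e` on the variety `X` of `P` is detected by a specialisation: there are
specialisations `X₀` and `Y₀` of `X` and `Y` over a field `k₀`, and a variety `Z` over `k₀` which
satisfies the Lefschetz standard conjecture and for which the standard conjecture of Hodge type
holds for `Z × X₀` and for `Z × Y₀`, such that `e` is detected by an algebraic cycle on
`Z × X₀`. -/
def Detected (W : WeilCohomology.{u, v} ops) (P Q : Polarized 𝒱)
    (e : (P.X.prod P.X).Cycles) : Prop :=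
  ∃ (k₀ : Type u) (_ : Field k₀) (𝒱₀ : VarClass k₀) (ops₀ : CycleOps 𝒱₀)
    (W₀ : WeilCohomology.{u, v} ops₀) (P₀ Q₀ Z : Polarized 𝒱₀)
    (S : Specialization W W₀ P Q P₀ Q₀),
    IsLefschetz W₀ Z ∧ Hodge W₀ (Z.prod ops₀ P₀) ∧ Hodge W₀ (Z.prod ops₀ Q₀) ∧
    DetectedOn S Z.X e

/-- The cycle `e` of codimension `dim X` on `X × X` induces a nonzero idempotent operator on
`H(X)`. -/
def IsIdempotentCycle (W : WeilCohomology.{u, v} ops) (X : 𝒱.Obj)
    (e : (X.prod X).Cycles) : Prop :=
  (X.prod X).IsCyc X.dim e ∧ (∀ a, corrMap W e (corrMap W e a) = corrMap W e a) ∧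
    ∃ a, corrMap W e a ≠ 0

end Pool.Agent.H846.Det
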