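import Pool.Graph.R_pool_sql_team_seeded_b0a926ef.R911.Iso.Geo2

/-!
# The hard Lefschetz theorem and the conjecture B from an algebraic lowering operator
-/

open CategoryTheory AlgebraicGeometry Finset

universe u v

namespace Pool.Agent.H846.Det

open Pool.Agent.H914 Pool.Agent.H914.VarClass Pool.Agent.H914.VarClass.Obj
  Pool.Agent.H914.WeilCohomology Pool.Agent.H281R3.HT Pool.Agent.W552 Pool.Agent.W539.Ker
  Pool.Agent.R911.Iso Pool.Agent.H447

variable {k : Type u} [Field k] {𝒱 : VarClass k} {ops : CycleOps 𝒱}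
  {W : WeilCohomology.{u, v} ops} {X Y : 𝒱.Obj} {D : X.Cycles} {f : Module.End W.K (W.H X)}

section One

variable (F : Fr W X D f)

include F

lemma f_pow_mem {i : ℕ} {a : W.H X} (ha : a ∈ W.gr X i) (c : ℕ) (hc : 2 * c ≤ i) :
    (f ^ c) a ∈ W.gr X (i - 2 * c) := by
  induction c with
  | zero => simpa using ha
  | succ c ih =>
    rw [pow_succ', Module.End.mul_apply]
    exact (F.f_gr (ih (by omega))).1 _ (by omega)

/-- Hard Lefschetz. -/
theorem hardLefschetz_of_fr : HardLefschetz W X D := by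
  set L := LinearMap.mulLeft W.K (W.cl X D) with hL
  have hLh : IsHom (W.gr X) 2 L := mulLeft_isHom F.hD
  have hinj : ∀ i ≤ X.dim, ∀ a ∈ W.gr X i, (L ^ (X.dim - i)) a = 0 → a = 0 := by
    intro i hi a ha h0
    by_contra ha0
    have hwt : wt (W.isInternal X) X.dim a = -((X.dim - i : ℕ) : W.K) • a := by
      rw [Fr.wt_gr ha, Nat.cast_sub hi]
      congr 1
      ring
    have h1 : (L ^ (X.dim - i + 1)) a = 0 := by
      rw [pow_succ', Module.End.mul_apply, h0, map_zero]
    have h2 := F.sl2.f_eq_zero hwt h1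
    exact Sl2.e_pow_ne F.sl2 h2 hwt ha0 (le_refl _) h0
  intro i hi
  refine ⟨hinj i hi, ?_⟩
  let φ : W.gr X i →ₗ[W.K] W.gr X (2 * X.dim - i) :=
    ((L ^ (X.dim - i)) ∘ₗ (W.gr X i).subtype).codRestrict _ (by
      intro a
      have := pow_L_mem hLh a.2 (X.dim - i)
      rwa [show i + 2 * (X.dim - i) = 2 * X.dim - i by omega] at this)
  let ψ : W.gr X (2 * X.dim - i) →ₗ[W.K] W.gr X i :=
    ((f ^ (X.dim - i)) ∘ₗ (W.gr X (2 * X.dim - i)).subtype).codRestrict _ (by
      intro a
      have := f_pow_mem F a.2 (X.dim - i) (by omega)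
      rwa [show 2 * X.dim - i - 2 * (X.dim - i) = i by omega] at this)
  have hφ : Function.Injective φ := by
    rw [injective_iff_map_eq_zero]
    intro a ha
    apply Subtype.ext
    apply hinj i hi a a.2
    exact congrArg Subtype.val ha
  have hψ : Function.Injective ψ := by
    rw [injective_iff_map_eq_zero]
    intro a ha
    apply Subtype.ext
    have h1 : (f ^ (X.dim - i)) (a : W.H X) = 0 := congrArg Subtype.val ha
    refine f_pow_inj F.sl2 ?_ h1
    rw [Fr.wt_gr a.2, Nat.cast_sub (by omega), Nat.cast_sub hi]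
    congr 1
    push_cast
    ring
  have hfr : Module.finrank W.K (W.gr X i) = Module.finrank W.K (W.gr X (2 * X.dim - i)) :=
    le_antisymm (LinearMap.finrank_le_finrank_of_injective hφ)
      (LinearMap.finrank_le_finrank_of_injective hψ)
  have hs := (LinearMap.injective_iff_surjective_of_finrank_eq_finrank hfr).1 hφ
  intro b hb
  obtain ⟨a, ha⟩ := hs ⟨b, hb⟩
  exact ⟨a, a.2, congrArg Subtype.val ha⟩

/-- The lowering operator has degree minus two. -/
lemma hm_f : Hm W (-2) f := by
  apply gr_ext (W.isInternal X)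
  intro i a ha
  rw [LinearMap.comp_apply, LinearMap.add_apply, LinearMap.comp_apply, LinearMap.smul_apply,
    Fr.wt_gr ha, map_smul]
  rcases Nat.lt_or_ge i 2 with h2 | h2
  · rw [(F.f_gr ha).2 h2]; simp
  · rw [Fr.wt_gr ((F.f_gr ha).1 (i - 2) (by omega)), ← add_smul]
    congr 1
    rw [Nat.cast_sub h2]
    push_cast
    ring

end One

/-- Algebraic operators of weight `2 d` are induced by cycles. -/
lemma rop_of_aop_deg {u : Module.End W.K (W.H X)} {d : ℤ} (h : AOp W X X u)
    (h0 : Hm W (2 * d) u) : ROp W X d u := by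
  obtain ⟨c, hc, rfl⟩ := h
  have h1 := hm_corr.1 h0
  rcases AS_wt (W := W) hc (m := 2 * d) h1 with rfl | ⟨j, hj, hcj⟩
  · rw [corr_zero]; exact rop_opAlg.zero d
  · obtain ⟨z, hz, rfl⟩ := hcj
    rw [dim_prod] at hj
    push_cast at hj
    exact ⟨fun W => W.corr (W.cl _ z), Or.inl ⟨j, by omega, z, hz, fun _ => rfl⟩, rfl⟩

section Two

variable (F : Fr W X D f)

include F

/-- The conjecture B. -/
theorem lefschetzB_of_fr : LefschetzB W X D := by
  apply lefschetzB_of_lower F.hD (hardLefschetz_of_fr F) F.sl2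
  apply rop_of_aop_deg F.aop
  exact hm_f F

theorem gd_of_fr : Gd W X D f := by
  have hHL := hardLefschetz_of_fr F
  have hp := proj_aop F.hD hHL (lefschetzB_of_fr F)
  exact ⟨F, ⟨mulLeft_isHom F.hD, W_hbd, hHL, F.sl2⟩, st_aop F hp, par_aop hp⟩

end Two

/-- The product of two polarized varieties satisfying the conjecture B. -/
theorem gd_prod {E : Y.Cycles} {g : Module.End W.K (W.H Y)} (G : Gd W X D f) (G' : Gd W Y E g) :
    Gd W (X.prod Y) (ops.pull (fst X Y) D + ops.pull (snd X Y) E) (extSum W f g) :=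
  gd_of_fr (G.fr.prod G'.fr)

section Form

variable (G : Gd W X D f)

include G

/-- The form is symmetric on the algebraic classes. -/
lemma bf_symm {x y : W.H X} (hy : AS W X y) :
    bf W X D f x y = bf W X D f y x := by
  have h1 : par (W.isInternal X) y = y := by
    refine AS.ind (p := fun y => par (W.isInternal X) y = y) ?_ ?_ hy
    · intro j c hc
      rw [par, scal_apply _ _ (alg_gr hc), pow_mul]
      simp
    · intro a b ha hb
      rw [map_add, ha, hb]
  rw [G.sy x y, h1]

/-- The form is nonnegative on all algebraic classes if it is so on the homogeneous ones. -/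
theorem bf_nonneg_of_hom (h : ∀ l, ∀ c ∈ algClasses W X l, ∃ q : ℚ, 0 ≤ q ∧ bf W X D f c c = q)
    {c : W.H X} (hc : AS W X c) : ∃ q : ℚ, 0 ≤ q ∧ bf W X D f c c = q := by
  have key : ∀ j, ∃ q : ℚ, 0 ≤ q ∧
      bf W X D f (proj (W.isInternal X) (2 * j) c) (proj (W.isInternal X) (2 * j) c) = q := by
    intro j
    exact h _ _ (hc.proj j)
  choose q hq0 hq using key
  refine ⟨∑ j ∈ Finset.range (X.dim + 1), q j, Finset.sum_nonneg (fun j _ => hq0 j), ?_⟩
  have h1 : bf W X D f c c = bf W X D f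
      (∑ j ∈ Finset.range (X.dim + 1), proj (W.isInternal X) (2 * j) c)
      (∑ j ∈ Finset.range (X.dim + 1), proj (W.isInternal X) (2 * j) c) := by
    rw [← Fr.AS_sum hc]
  rw [h1, map_sum (bf W X D f), LinearMap.sum_apply, Rat.cast_sum]
  apply Finset.sum_congr rfl
  intro j hj
  rw [map_sum, Finset.sum_eq_single j, hq]
  · intro i _ hi
    exact G.fr.bf_deg (proj_mem _ _ _) (proj_mem _ _ _) (by omega)
  · intro h0; exact absurd hj h0

/-- The form on all algebraic classes is nonnegative under the standard conjecture of Hodge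
type. -/
theorem bf_nonneg_AS (hH : HodgeStandard W X D) {c : W.H X} (hc : AS W X c) :
    ∃ q : ℚ, 0 ≤ q ∧ bf W X D f c c = q :=
  bf_nonneg_of_hom G (fun _ _ hc => bf_nonneg G.fr hH hc) hc

/-- The inequality of Cauchy and Schwarz on the algebraic classes. -/
theorem bf_cs (hnn : ∀ c, AS W X c → ∃ q : ℚ, 0 ≤ q ∧ bf W X D f c c = q) {x y : W.H X}
    (hx : AS W X x) (hy : AS W X y) (h0 : bf W X D f x x = 0) : bf W X D f x y = 0 := by
  obtain ⟨b, hb⟩ := G.fr.bf_rat hx hy
  obtain ⟨c, hc0, hc⟩ := hnn y hy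
  by_contra hne
  have hb0 : b ≠ 0 := by
    rintro rfl
    apply hne
    rw [hb, Rat.cast_zero]
  have key : ∀ t : ℚ, 0 ≤ c + 2 * t * b := by
    intro t
    obtain ⟨q, hq0, hq⟩ := hnn (y + (t : W.K) • x) (hy.add (hx.smul t))
    have h1 : bf W X D f (y + (t : W.K) • x) (y + (t : W.K) • x) = ((c + 2 * t * b : ℚ) : W.K) := by
      rw [map_add (bf W X D f), LinearMap.add_apply, map_add, map_add, map_smul (bf W X D f),
        LinearMap.smul_apply, LinearMap.smul_apply, map_smul, map_smul, h0, hc,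
        bf_symm G (x := y) hx, hb]
      simp only [smul_eq_mul]
      push_cast
      ring
    rw [hq] at h1
    have h2 : q = c + 2 * t * b := by exact_mod_cast h1
    rw [← h2]
    exact hq0
  have h1 := key (-(c + 1) / (2 * b))
  have h2 : 2 * (-(c + 1) / (2 * b)) * b = -(c + 1) := by
    field_simp
  rw [h2] at h1
  linarith

/-- A cycle whose class is orthogonal to all algebraic classes for the form is numerically
trivial. -/
theorem numZero_of_bf {n : ℕ} (hn : n ≤ X.dim) {z : X.Cycles} (hz : X.IsCyc n z)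
    (h : ∀ y, AS W X y → bf W X D f (W.cl X z) y = 0) : NumZero ops X n z := by
  intro w hw
  have hcw : AS W X (W.cl X w) := AS.of ⟨w, hw, rfl⟩
  have h1 := h _ (G.fr.st_AS hcw)
  rw [bf_apply, G.st_st_apply, ← W.cl_mul, W.tr_cl] at h1
  · exact_mod_cast h1
  · have := ops.mul_mem hz hw
    rwa [show n + (X.dim - n) = X.dim by omega] at this

/-- The converse. -/
theorem bf_of_numZero {n : ℕ} (hn : n ≤ X.dim) {z : X.Cycles} (hz : X.IsCyc n z)
    (h : NumZero ops X n z) {y : W.H X} (hy : AS W X y) : bf W X D f (W.cl X z) y = 0 := by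
  rw [bf_apply]
  have h1 := G.fr.st_AS hy
  have h2 : W.tr X (W.cl X z * st W X D f y) =
      W.tr X (W.cl X z * proj (W.isInternal X) (2 * (X.dim - n)) (st W X D f y)) := by
    conv_lhs => rw [Fr.AS_sum h1]
    rw [Finset.mul_sum, map_sum, Finset.sum_eq_single (X.dim - n)]
    · intro j _ hj
      exact W.tr_eq_zero (W.mul_mem (W.cl_mem hz) (proj_mem _ _ _)) (by omega)
    · intro h0
      exact absurd (Finset.mem_range.2 (by omega)) h0
  rw [h2]
  obtain ⟨w, hw, hw'⟩ := h1.proj (X.dim - n)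
  rw [← hw', ← W.cl_mul, W.tr_cl, h w hw, Rat.cast_zero]
  have := ops.mul_mem hz hw
  rwa [show n + (X.dim - n) = X.dim by omega] at this

/-- **The standard conjecture of Hodge type from the positivity on the algebraic classes.** -/
theorem hodgeStandard_of_nonneg
    (hnn : ∀ c, AS W X c → ∃ q : ℚ, 0 ≤ q ∧ bf W X D f c c = q) : HodgeStandard W X D := by
  intro n hn z hz hnz
  obtain ⟨q, hq0, hq⟩ := hnn _ (AS.of ⟨z, hz.1, rfl⟩)
  have h1 := bf_same G.fr hn hz hz (j := 0) (Nat.zero_le _)
  simp only [pow_zero, Module.End.one_apply, Nat.factorial_zero, Nat.cast_one, one_mul,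
    Nat.sub_zero] at h1
  rw [hq] at h1
  have h2 : q = ((X.dim - 2 * n).factorial : ℚ)⁻¹ * pairing ops X D n z z := by
    exact_mod_cast h1
  have hc : (0 : ℚ) < ((X.dim - 2 * n).factorial : ℚ)⁻¹ := by positivity
  rcases hq0.lt_or_eq with h3 | h3
  · rw [h2] at h3
    exact (pos_iff_pos_of_mul_pos h3).1 hc
  · exfalso
    apply hnz
    apply numZero_of_bf G (by omega) hz.1
    intro y hy
    apply bf_cs G hnn (AS.of ⟨z, hz.1, rfl⟩) hy
    rw [hq, ← h3, Rat.cast_zero]

end Form

end Pool.Agent.H846.Det
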