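import Pool.Agent.H846.Det.Spec
import Pool.Agent.H846.Det.DetDefs

/-!
# The standard conjecture of Hodge type for a product from detection on specializations
-/

open CategoryTheory AlgebraicGeometry Finset

universe u v

namespace Pool.Agent.H846.Det

open Pool.Agent.H914 Pool.Agent.H914.VarClass Pool.Agent.H914.VarClass.Obj
  Pool.Agent.H914.WeilCohomology Pool.Agent.H281R3.HT Pool.Agent.W552 Pool.Agent.W539.Ker
  Pool.Agent.R911.Iso Pool.Agent.H447

variable {k : Type u} [Field k] {𝒱 : VarClass k} {ops : CycleOps 𝒱}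
  {W : WeilCohomology.{u, v} ops} {A B R : 𝒱.Obj}

lemma aop_ev {a : Module.End W.K (W.H A)} (ha : AOp W A A a) (h : Polynomial ℚ) :
    AOp W A A (ev a h) := by
  induction h using Polynomial.induction_on' with
  | add p q hp hq => rw [map_add]; exact hp.add hq
  | monomial n c =>
    rw [← mul_one c, ← smul_eq_mul, ← Polynomial.smul_monomial, ev_smul,
      ← Polynomial.X_pow_eq_monomial, map_pow, ev_X]
    exact (ha.pow n).smul c

variable {D : A.Cycles} {f : Module.End W.K (W.H A)} {E : B.Cycles}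
  {g : Module.End W.K (W.H B)} {C : R.Cycles} {r : Module.End W.K (W.H R)}

lemma adj_ev {a : Module.End W.K (W.H A)} (ha : Adj W D f D f a a) (h : Polynomial ℚ) :
    Adj W D f D f (ev a h) (ev a h) := by
  induction h using Polynomial.induction_on' with
  | add p q hp hq =>
    intro x y
    rw [map_add, LinearMap.add_apply, LinearMap.add_apply, map_add, map_add,
      LinearMap.add_apply, hp, hq]
  | monomial n c =>
    have h1 : ∀ n : ℕ, Adj W D f D f (a ^ n) (a ^ n) := by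
      intro n
      induction n with
      | zero => intro x y; rfl
      | succ n ih =>
        intro x y
        rw [pow_succ', Module.End.mul_apply, ha, ih, ← Module.End.mul_apply, ← pow_succ,
          pow_succ']
    intro x y
    rw [← mul_one c, ← smul_eq_mul, ← Polynomial.smul_monomial, ev_smul,
      ← Polynomial.X_pow_eq_monomial, map_pow, ev_X, LinearMap.smul_apply, LinearMap.smul_apply,
      map_smul, map_smul, LinearMap.smul_apply, h1]

section Functional

variable (GA : Gd W A D f) (GB : Gd W B E g) (GR : Gd W R C r)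

include GA GB GR

/-- **The functional attached to an algebraic class.** -/
theorem exists_functional
    (hA : HodgeStandard W (R.prod A) (ops.pull (fst R A) C + ops.pull (snd R A) D))
    (hB : HodgeStandard W (R.prod B) (ops.pull (fst R B) C + ops.pull (snd R B) E))
    {u : W.H A →ₗ[W.K] W.H B} {u' : W.H B →ₗ[W.K] W.H A} (hu : AOp W A B u)
    (hu' : AOp W B A u') (hadj : Adj W D f E g u u')
    {z : W.H R →ₗ[W.K] W.H A} {z' : W.H A →ₗ[W.K] W.H R} (hz : AOp W R A z)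
    (hz' : AOp W A R z') (hzadj : Adj W C r D f z z') :
    ∃ φ : Polynomial ℚ →ₗ[ℚ] ℚ, PosFun φ ∧
      ∀ h, ((φ h : ℚ) : W.K) = LinearMap.trace W.K (W.H R) (z' ∘ₗ ev (u' ∘ₗ u) h ∘ₗ z) := by
  have haop : AOp W A A (u' ∘ₗ u) := hu'.comp hu
  have hself : Adj W D f D f (u' ∘ₗ u) (u' ∘ₗ u) := Adj.self GA GB hadj hu
  have hrat : ∀ h, ∃ q : ℚ, LinearMap.trace W.K (W.H R) (z' ∘ₗ ev (u' ∘ₗ u) h ∘ₗ z) = q :=
    fun h => GR.trace_rat (hz'.comp ((aop_ev haop h).comp hz))
  choose φ hφ using hrat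
  let ψ : Polynomial ℚ →ₗ[ℚ] ℚ :=
    { toFun := φ
      map_add' := by
        intro p q
        apply Rat.cast_injective (α := W.K)
        rw [Rat.cast_add, ← hφ, ← hφ, ← hφ, map_add, LinearMap.add_comp, LinearMap.comp_add,
          map_add]
      map_smul' := by
        intro c p
        apply Rat.cast_injective (α := W.K)
        rw [RingHom.id_apply, smul_eq_mul, Rat.cast_mul, ← hφ, ← hφ, ev_smul,
          LinearMap.smul_comp, LinearMap.comp_smul, map_smul, smul_eq_mul] }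
  have hψ : ∀ h, ψ h = φ h := fun h => rfl
  refine ⟨ψ, ⟨?_, ?_⟩, fun h => (hφ h).symm⟩
  · intro h
    have h1 : Adj W C r D f (ev (u' ∘ₗ u) h ∘ₗ z) (z' ∘ₗ ev (u' ∘ₗ u) h) :=
      hzadj.comp (adj_ev hself h)
    obtain ⟨q, hq0, hq⟩ := trace_nonneg_of_hodge GR GA hA ((aop_ev haop h).comp hz) h1
    have h2 : (z' ∘ₗ ev (u' ∘ₗ u) h) ∘ₗ (ev (u' ∘ₗ u) h ∘ₗ z) =
        z' ∘ₗ ev (u' ∘ₗ u) (h * h) ∘ₗ z := by
      rw [map_mul]; rfl
    rw [h2, hφ] at hq
    rw [hψ, show φ (h * h) = q by exact_mod_cast hq]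
    exact hq0
  · intro h
    have h1 : Adj W C r E g (u ∘ₗ (ev (u' ∘ₗ u) h ∘ₗ z)) ((z' ∘ₗ ev (u' ∘ₗ u) h) ∘ₗ u') :=
      (hzadj.comp (adj_ev hself h)).comp hadj
    obtain ⟨q, hq0, hq⟩ := trace_nonneg_of_hodge GR GB hB
      (hu.comp ((aop_ev haop h).comp hz)) h1
    have h2 : ((z' ∘ₗ ev (u' ∘ₗ u) h) ∘ₗ u') ∘ₗ (u ∘ₗ (ev (u' ∘ₗ u) h ∘ₗ z)) =
        z' ∘ₗ ev (u' ∘ₗ u) (Polynomial.X * (h * h)) ∘ₗ z := by
      rw [show Polynomial.X * (h * h) = h * (Polynomial.X * h) by ring, map_mul, map_mul, ev_X]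
      rfl
    rw [h2, hφ] at hq
    rw [hψ, show φ (Polynomial.X * (h * h)) = q by exact_mod_cast hq]
    exact hq0

end Functional

/-- The square of a nonzero self-adjoint compression. -/
lemma functional_ne (GA : Gd W A D f) (GR : Gd W R C r)
    (hA : HodgeStandard W (R.prod A) (ops.pull (fst R A) C + ops.pull (snd R A) D))
    {p : ℕ} (hp : p ≤ (R.prod A).dim) {z : (R.prod A).Cycles} (hz : (R.prod A).IsCyc p z)
    {z' : W.H A →ₗ[W.K] W.H R} (hzadj : Adj W C r D f (W.corr (W.cl _ z)) z')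
    {e : Module.End W.K (W.H A)} (he2 : e * e = e) (hself : Adj W D f D f e e)
    {e₀ : (A.prod A).Cycles} (he₀ : (A.prod A).IsCyc A.dim e₀) (hee : W.corr (W.cl _ e₀) = e)
    (hnz : ¬ NumZero ops (R.prod A) p (compCyc ops z e₀)) :
    LinearMap.trace W.K (W.H R) (z' ∘ₗ e ∘ₗ W.corr (W.cl _ z)) ≠ 0 := by
  intro h0
  have hc : (R.prod A).IsCyc p (compCyc ops z e₀) := by
    exact compCyc_mem hz he₀ (by omega)
  have hcorr : W.corr (W.cl _ (compCyc ops z e₀)) = e ∘ₗ W.corr (W.cl _ z) := by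
    rw [corr_compCyc W he₀, hee]
  have hAS : AS W (R.prod A) (W.cl _ (compCyc ops z e₀)) := AS.of ⟨_, hc, rfl⟩
  have hadj : Adj W C r D f (W.corr (W.cl _ (compCyc ops z e₀))) (z' ∘ₗ e) := by
    rw [hcorr]
    exact hzadj.comp hself
  have h1 := trace_adj GR GA hAS hadj
  have h2 : (z' ∘ₗ e) ∘ₗ W.corr (W.cl _ (compCyc ops z e₀)) = z' ∘ₗ e ∘ₗ W.corr (W.cl _ z) := by
    rw [hcorr, LinearMap.comp_assoc, ← LinearMap.comp_assoc _ e e]
    have : e ∘ₗ e = e := he2
    rw [this]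
  rw [h2, h0] at h1
  apply hnz
  have GP := gd_prod GR GA
  apply numZero_of_bf GP hp hc
  intro y hy
  exact bf_cs GP (fun c hc => bf_nonneg_AS GP hA hc) hAS hy h1.symm

/-- **The standard conjecture of Hodge type for a product from the detection of the idempotent
correspondences.** -/
theorem hodge_of_detected (W : WeilCohomology.{u, v} ops) (P Q : Polarized 𝒱)
    (hP : IsLefschetz W P) (hQ : IsLefschetz W Q)
    (h_det : ∀ e, IsIdempotentCycle W P.X e → Detected W P Q e) : Hodge W (P.prod ops Q) := by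
  obtain ⟨f, G⟩ := exists_gd hP.isCyc hP.hard hP.std
  obtain ⟨g, G'⟩ := exists_gd hQ.isCyc hQ.hard hQ.std
  change HodgeStandard W (P.X.prod Q.X) (ops.pull (fst P.X Q.X) P.D + ops.pull (snd P.X Q.X) Q.D)
  apply hodge_of_trace_nonneg G G'
  intro l c hc u' hu' hadj
  set u := W.corr (W.cl (P.X.prod Q.X) c) with hudef
  have hu : AOp W P.X Q.X u := ⟨_, AS.of ⟨c, hc, rfl⟩, rfl⟩
  set a : Module.End W.K (W.H P.X) := u' ∘ₗ u with ha
  have haop : AOp W P.X P.X a := hu'.comp hu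
  have hself : Adj W P.D f P.D f a a := Adj.self G G' hadj hu
  -- the operator has weight zero
  have hwt : ∃ m : ℤ, Hm W m u := by
    refine ⟨2 * (l : ℤ) - (P.X.prod Q.X).dim, ?_⟩
    rw [hudef, hm_corr, Fr.wt_gr (W.cl_mem hc)]
    congr 1
    push_cast
    ring
  obtain ⟨m, hm⟩ := hwt
  have hm' := G.hm_adj G' hadj hm
  have ha0 : Hm W 0 a := by
    have := hm'.comp hm
    rwa [neg_add_cancel] at this
  have haR : a ∈ AR W P.X := rop_of_aop haop ha0
  have hevR : ∀ h, ev a h ∈ AR W P.X := by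
    intro h
    induction h using Polynomial.induction_on' with
    | add p q hp hq => rw [map_add]; exact (AR W P.X).add_mem hp hq
    | monomial n c =>
      rw [← mul_one c, ← smul_eq_mul, ← Polynomial.smul_monomial, ev_smul,
        ← Polynomial.X_pow_eq_monomial, map_pow, ev_X]
      exact rop_opAlg.smul c ((AR W P.X).pow_mem haR n)
  refine (trace_nonneg (a := a) (fun n => G.trace_rat (haop.pow n)) ?_).2
  intro h he2 hne
  obtain ⟨ε, hε, hεe⟩ := exists_cR (W := W) ⟨ev a h, hevR h⟩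
  have hεe' : W.corr (W.cl _ ε) = ev a h := congrArg Subtype.val hεe
  obtain ⟨k₀, _, 𝒱₀, ops₀, W₀, P₀, Q₀, R, S, hR, hRP, hRQ, e₀, p, z, he₀, hspec, hp, hz, hnz⟩ :=
    h_det ε ⟨hε, by
      have h5 : ∀ x, corrMap W ε x = ev a h x := fun x => congrArg (fun T => T x) hεe'
      constructor
      · intro x
        rw [h5, h5]
        exact congrArg (fun T => T x) he2
      · by_contra hc
        push Not at hc
        apply hne
        apply LinearMap.ext
        intro x
        rw [← h5, hc, LinearMap.zero_apply]⟩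
  obtain ⟨f₀, G₀, hf₀⟩ := exists_gd_spec S.fst G S.pp
  obtain ⟨g₀, G₀', hg₀⟩ := exists_gd_spec S.snd G' S.qq
  obtain ⟨r, GR⟩ := exists_gd hR.isCyc hR.hard hR.std
  obtain ⟨u₀, hu₀, hru⟩ := exists_rel S.pq hu
  obtain ⟨u₀', hu₀', hru'⟩ := exists_rel S.qp hu'
  have hadj₀ := adj_spec S.fst S.snd G G₀ G' G₀' hru hru' hadj
  have hζ : AOp W₀ R.X P₀.X (W₀.corr (W₀.cl _ z)) := ⟨_, AS.of ⟨z, hz, rfl⟩, rfl⟩
  obtain ⟨ζ', hζ', hζadj⟩ := GR.adj G₀ hζ
  obtain ⟨φ, hφ, hφ'⟩ := exists_functional G₀ G₀' GR hRP hRQ hu₀ hu₀' hadj₀ hζ hζ' hζadj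
  have hra : Rel S.s S.s a (u₀' ∘ₗ u₀) := hru'.comp hru
  have hrev : ∀ q, Rel S.s S.s (ev a q) (ev (u₀' ∘ₗ u₀) q) := fun q => hra.ev S.fst.smul' q
  refine ⟨φ, hφ, ?_, ?_⟩
  · intro q hq
    have h1 : ev (u₀' ∘ₗ u₀) q = 0 := by
      refine (hrev q).unique ?_
      rw [hq]
      intro x
      rw [LinearMap.zero_apply, map_zero, LinearMap.zero_apply]
    have h2 := hφ' q
    rw [h1, LinearMap.zero_comp, LinearMap.comp_zero, map_zero] at h2
    exact_mod_cast h2
  · intro h0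
    have h1 := hφ' h
    rw [h0, Rat.cast_zero] at h1
    have hee : W₀.corr (W₀.cl _ e₀) = ev (u₀' ∘ₗ u₀) h := by
      have h2 : Rel S.s S.s (ev a h) (W₀.corr (W₀.cl _ e₀)) := by
        rw [← hεe']
        exact hspec
      exact h2.unique (hrev h)
    refine functional_ne G₀ GR hRP hp hz hζadj ?_ (adj_ev (Adj.self G₀ G₀' hadj₀ hu₀) h) he₀
      hee hnz h1.symm
    have h3 := (hrev h).mul (hrev h)
    rw [he2] at h3
    exact h3.unique (hrev h)

end Pool.Agent.H846.Det
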